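import Pool.Agent.helper66.JS.Defs2

set_option autoImplicit false

/-!
# Module H: tight solutions give runs of the net
-/

namespace Pool.Agent.helper66.JS

open Finset

namespace HMod

variable {n : Net}

theorem th_lt {s : ℕ} (hs : s < n.a) : th s < n.zl := by
  unfold th Net.zl
  omega

theorem th_pos (s : ℕ) : 2 < th s := by
  unfold th
  omega

theorem zl_pos : 3 < n.zl := by
  unfold Net.zl
  omega

theorem th_inj {s s' : ℕ} (h : th s = th s') : s = s' := by
  unfold th at h
  omega

/-- uniqueness of division with remainder, in the form used here -/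
theorem uniq {z b x e d : ℕ} (hb : z ∣ b) (hx : z ∣ x) (he : e < z) (hd : d < z)
    (h : b + e = x + d) : x = b ∧ e = d := by
  obtain ⟨u, rfl⟩ := hb
  obtain ⟨v, rfl⟩ := hx
  have h1 : (z * u + e) % z = e := by rw [Nat.mul_add_mod, Nat.mod_eq_of_lt he]
  have h2 : (z * v + d) % z = d := by rw [Nat.mul_add_mod, Nat.mod_eq_of_lt hd]
  rw [h, h2] at h1
  subst h1
  exact ⟨by omega, rfl⟩

/-- populated residues -/
def Pop (n : Net) (t : ℕ) : Prop :=
  t % n.zl = 0 ∨ t % n.zl = 1 ∨ ∃ s < n.a, t % n.zl = th s

theorem zl_dvd_P : n.zl ∣ n.P := Dvd.intro_left _ rfl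

theorem pop_of {z : ℕ} (hz : n.zl ∣ z) {d : ℕ} (hd : d = 0 ∨ d = 1 ∨ ∃ s < n.a, d = th s) :
    Pop n (z + d) := by
  obtain ⟨u, rfl⟩ := hz
  have hlt : d < n.zl := by
    rcases hd with h | h | ⟨s, hs, h⟩
    · have := zl_pos (n := n); omega
    · have := zl_pos (n := n); omega
    · rw [h]; exact th_lt hs
  unfold Pop
  rw [Nat.mul_add_mod, Nat.mod_eq_of_lt hlt]
  exact hd

theorem pop_add_P {t : ℕ} (h : Pop n t) : Pop n (t + n.P) := by
  obtain ⟨u, hu⟩ := zl_dvd_P (n := n)
  unfold Pop at *
  rw [hu, Nat.add_mul_mod_self_left]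
  exact h

theorem dvd_of_pop {t : ℕ} (h : Pop n t) (h' : Pop n (t + 1)) : n.zl ∣ t := by
  have hz := zl_pos (n := n)
  unfold Pop at h h'
  have hlt := Nat.mod_lt t (show 0 < n.zl by omega)
  have hmod : (t + 1) % n.zl = (t % n.zl + 1) % n.zl := by rw [Nat.mod_add_mod]
  rw [hmod] at h'
  apply Nat.dvd_of_mod_eq_zero
  by_contra hne
  have hcase : t % n.zl + 1 < n.zl ∨ t % n.zl + 1 = n.zl := by omega
  rcases hcase with hc | hc
  · rw [Nat.mod_eq_of_lt hc] at h'
    unfold th at h h'
    rcases h with h | h | ⟨s, hs, h⟩ <;> rcases h' with h' | h' | ⟨s', hs', h'⟩ <;> omega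
  · rcases h with h | h | ⟨s, hs, h⟩
    · omega
    · omega
    · unfold th Net.zl at h
      unfold Net.zl at hc
      omega

section

variable (hn : n.Ok) {tT : List ℕ} {tR : List (ℕ × ℕ)} (h : n.TPS tT tR)

/-- letters `z` of the rules in tick `t` -/
def zR (n : Net) (tR : List (ℕ × ℕ)) (t : ℕ) : ℕ :=
  tR.countP (fun p => decide (p.2 ≤ t ∧ t - p.2 ∈ (n.rw (n.rule p.1)).Z))

/-- letters `a` of the rules in tick `t` -/
def aR (n : Net) (tR : List (ℕ × ℕ)) (t : ℕ) : ℕ :=
  tR.countP (fun p => decide (p.2 ≤ t ∧ t - p.2 ∈ (n.rw (n.rule p.1)).A))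

theorem cZ_eq (t : ℕ) : n.cZ tT tR t = tT.count t + zR n tR t + n.Fc t := rfl

theorem cA_eq (t : ℕ) : n.cA tT tR t =
    n.Ic t + tT.countP (fun t0 => decide (t0 + n.P = t)) + aR n tR t := rfl

theorem mem_Z (R : Rule) (d : ℕ) : d ∈ (n.rw R).Z ↔ d = 0 ∨ d = 1 ∨ d = th R.i0 ∨ d = th R.i1 ∨
    d = th R.i2 := by
  simp [Net.rw]

theorem mem_A (R : Rule) (d : ℕ) : d ∈ (n.rw R).A ↔ d = n.P + th R.o0 ∨ d = n.P + th R.o1 ∨
    d = n.P + th R.o2 ∨ d = 2 * n.P ∨ d = 2 * n.P + 1 := by
  simp [Net.rw]

include hn in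
theorem P_pos : n.zl ≤ n.P := Nat.le_mul_of_pos_left _ hn.Zn

theorem lt_P {z d : ℕ} (hz : z < n.Zn) (hd : d < n.zl) : z * n.zl + d < n.P := by
  unfold Net.P
  have : (z + 1) * n.zl ≤ n.Zn * n.zl := Nat.mul_le_mul_right _ hz
  have e : (z + 1) * n.zl = z * n.zl + n.zl := by ring
  omega

theorem Ic_pop {t : ℕ} (ht : 0 < n.Ic t) : Pop n t := by
  unfold Net.Ic at ht
  obtain ⟨z, hz, hne⟩ := Finset.exists_ne_zero_of_sum_ne_zero (ne_of_gt ht)
  by_cases h1 : t = z * n.zl
  · rw [h1]
    simpa using pop_of (n := n) (Dvd.intro_left z rfl) (d := 0) (Or.inl rfl)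
  by_cases h2 : t = z * n.zl + 1
  · rw [h2]
    exact pop_of (Dvd.intro_left z rfl) (Or.inr (Or.inl rfl))
  rw [if_neg h1, if_neg h2] at hne
  simp only [zero_add] at hne
  obtain ⟨s, hs, hne'⟩ := Finset.exists_ne_zero_of_sum_ne_zero hne
  by_cases h3 : t = z * n.zl + th s
  · rw [h3]
    exact pop_of (Dvd.intro_left z rfl) (Or.inr (Or.inr ⟨s, Finset.mem_range.1 hs, rfl⟩))
  · rw [if_neg h3] at hne'
    exact absurd rfl hne'

include h in
theorem rule_pos {p : ℕ × ℕ} (hp : p ∈ tR) (d : ℕ) (hd : d ∈ (n.rw (n.rule p.1)).Z) :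
    0 < n.cA tT tR (p.2 + d) := by
  rw [h.bal, cZ_eq]
  have : 0 < zR n tR (p.2 + d) := by
    unfold zR
    rw [List.countP_pos_iff]
    refine ⟨p, hp, ?_⟩
    simp [hd]
  omega

include hn h in
theorem pop_all (t : ℕ) : 0 < n.cA tT tR t → Pop n t := by
  induction t using Nat.strong_induction_on with
  | _ t ih =>
    intro ht
    have hPz := P_pos hn
    have hz := zl_pos (n := n)
    rw [cA_eq] at ht
    have hcase : 0 < n.Ic t ∨ 0 < tT.countP (fun t0 => decide (t0 + n.P = t)) ∨
        0 < aR n tR t := by omega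
    rcases hcase with h1 | h1 | h1
    · exact Ic_pop h1
    · obtain ⟨t0, ht0, he⟩ := List.countP_pos_iff.1 h1
      have he' : t0 + n.P = t := by simpa using he
      have hpos : 0 < n.cA tT tR t0 := by
        rw [h.bal, cZ_eq]
        have : 0 < tT.count t0 := List.count_pos_iff.2 ht0
        omega
      rw [← he']
      exact pop_add_P (ih t0 (by omega) hpos)
    · unfold aR at h1
      obtain ⟨p, hp, he⟩ := List.countP_pos_iff.1 h1
      have he' : p.2 ≤ t ∧ t - p.2 ∈ (n.rw (n.rule p.1)).A := by simpa using he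
      have hA := (mem_A _ _).1 he'.2
      have hO := hn.rO p.1 (h.bR p hp).1
      have hle : p.2 + 1 < t := by
        have := th_pos (n.rule p.1).o0
        have := th_pos (n.rule p.1).o1
        have := th_pos (n.rule p.1).o2
        omega
      have hd : n.zl ∣ p.2 := dvd_of_pop
        (ih p.2 (by omega) (by simpa using rule_pos h hp 0 (by simp [mem_Z])))
        (ih (p.2 + 1) hle (rule_pos h hp 1 (by simp [mem_Z])))
      obtain ⟨u, hu⟩ := zl_dvd_P (n := n)
      have hd1 : n.zl ∣ p.2 + n.P := Dvd.dvd.add hd zl_dvd_P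
      have hd2 : n.zl ∣ p.2 + 2 * n.P := Dvd.dvd.add hd (Dvd.dvd.mul_left zl_dvd_P 2)
      rcases hA with hA | hA | hA | hA | hA
      · have e : t = p.2 + n.P + th (n.rule p.1).o0 := by omega
        rw [e]
        exact pop_of hd1 (Or.inr (Or.inr ⟨_, by omega, rfl⟩))
      · have e : t = p.2 + n.P + th (n.rule p.1).o1 := by omega
        rw [e]
        exact pop_of hd1 (Or.inr (Or.inr ⟨_, by omega, rfl⟩))
      · have e : t = p.2 + n.P + th (n.rule p.1).o2 := by omega
        rw [e]
        exact pop_of hd1 (Or.inr (Or.inr ⟨_, by omega, rfl⟩))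
      · have e : t = p.2 + 2 * n.P + 0 := by omega
        rw [e]
        exact pop_of hd2 (Or.inl rfl)
      · have e : t = p.2 + 2 * n.P + 1 := by omega
        rw [e]
        exact pop_of hd2 (Or.inr (Or.inl rfl))

include hn h in
theorem start_dvd {p : ℕ × ℕ} (hp : p ∈ tR) : n.zl ∣ p.2 :=
  dvd_of_pop (pop_all hn h _ (by simpa using rule_pos h hp 0 (by simp [mem_Z])))
    (pop_all hn h _ (rule_pos h hp 1 (by simp [mem_Z])))

include hn in
theorem Ic_big {t : ℕ} (ht : n.P ≤ t) : n.Ic t = 0 := by
  have hz := zl_pos (n := n)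
  unfold Net.Ic
  refine Finset.sum_eq_zero fun z hz' => ?_
  have hz'' := Finset.mem_range.1 hz'
  have h0 := lt_P hz'' (d := 0) (by omega)
  have h1 := lt_P hz'' (d := 1) (by omega)
  rw [if_neg (by omega), if_neg (by omega)]
  simp only [zero_add]
  refine Finset.sum_eq_zero fun s hs => ?_
  have := lt_P hz'' (th_lt (Finset.mem_range.1 hs))
  rw [if_neg (by omega)]

theorem Fc_small {t : ℕ} (ht : t < n.Cyc * n.P) : n.Fc t = 0 := by
  unfold Net.Fc
  refine Finset.sum_eq_zero fun z hz' => ?_
  rw [if_neg (by omega), if_neg (by omega)]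
  simp only [zero_add]
  refine Finset.sum_eq_zero fun s hs => ?_
  rw [if_neg (by omega)]

include hn h in
/-- the recurrence from one round to the next -/
theorem recur {t : ℕ} (ht : t < n.Cyc * n.P) :
    n.cA tT tR (t + n.P) + zR n tR t = n.cA tT tR t + aR n tR (t + n.P) := by
  have h1 := h.bal t
  rw [cZ_eq, Fc_small ht] at h1
  rw [cA_eq (t + n.P), Ic_big hn (Nat.le_add_left _ _), h1]
  have : tT.countP (fun t0 => decide (t0 + n.P = t + n.P)) = tT.count t := by
    rw [List.count_eq_countP]
    apply List.countP_congr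
    intro x _
    simp
  rw [this]
  omega

/-! ### one zone -/

/-- first tick of zone `z` in round `ρ` -/
def bs (n : Net) (z ρ : ℕ) : ℕ := ρ * n.P + z * n.zl

theorem bs_succ (z ρ : ℕ) : bs n z (ρ + 1) = bs n z ρ + n.P := by
  unfold bs
  ring

theorem zl_dvd_bs (z ρ : ℕ) : n.zl ∣ bs n z ρ :=
  Dvd.dvd.add (Dvd.dvd.mul_left zl_dvd_P _) (Dvd.intro_left z rfl)

theorem bs_lt {z ρ d : ℕ} (hz : z < n.Zn) (hρ : ρ < n.Cyc) (hd : d < n.zl) :
    bs n z ρ + d < n.Cyc * n.P := by
  have h1 := lt_P hz hd
  have h2 : (ρ + 1) * n.P ≤ n.Cyc * n.P := Nat.mul_le_mul_right _ hρ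
  have e : (ρ + 1) * n.P = ρ * n.P + n.P := by ring
  unfold bs
  omega

include hn h in
theorem zR_ctl (z ρ : ℕ) : zR n tR (bs n z ρ) = tR.countP (fun p => decide (p.2 = bs n z ρ)) := by
  have hz := zl_pos (n := n)
  unfold zR
  apply List.countP_congr
  intro p hp
  have hd := start_dvd hn h hp
  have hI := hn.rI p.1 (h.bR p hp).1
  simp only [decide_eq_true_eq]
  rw [mem_Z]
  constructor
  · rintro ⟨hle, hm⟩
    rcases hm with hm | hm | hm | hm | hm
    · omega
    · exact (uniq (zl_dvd_bs z ρ) hd (e := 0) (d := 1) (by omega) (by omega) (by omega)).1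
    · exact (uniq (zl_dvd_bs z ρ) hd (e := 0) (d := th (n.rule p.1).i0) (by omega)
        (th_lt (by omega)) (by omega)).1
    · exact (uniq (zl_dvd_bs z ρ) hd (e := 0) (d := th (n.rule p.1).i1) (by omega)
        (th_lt (by omega)) (by omega)).1
    · exact (uniq (zl_dvd_bs z ρ) hd (e := 0) (d := th (n.rule p.1).i2) (by omega)
        (th_lt (by omega)) (by omega)).1
  · intro he
    exact ⟨by omega, Or.inl (by omega)⟩

include hn h in
theorem aR_ctl {z ρ : ℕ} (hzn : z < n.Zn) : aR n tR (bs n z (ρ + 1)) =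
    tR.countP (fun p => decide (p.2 + n.P = bs n z ρ)) := by
  have hz := zl_pos (n := n)
  have hPz := P_pos hn
  unfold aR
  apply List.countP_congr
  intro p hp
  have hd := start_dvd hn h hp
  have hO := hn.rO p.1 (h.bR p hp).1
  have hlt := th_lt (n := n) (s := (n.rule p.1).o0) (by omega)
  have hlt1 := th_lt (n := n) (s := (n.rule p.1).o1) (by omega)
  have hlt2 := th_lt (n := n) (s := (n.rule p.1).o2) (by omega)
  have hp0 := th_pos (n.rule p.1).o0
  have hp1 := th_pos (n.rule p.1).o1
  have hp2 := th_pos (n.rule p.1).o2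
  have hd1 : n.zl ∣ p.2 + n.P := Dvd.dvd.add hd zl_dvd_P
  simp only [decide_eq_true_eq]
  rw [mem_A, bs_succ]
  constructor
  · rintro ⟨hle, hm⟩
    rcases hm with hm | hm | hm | hm | hm
    · have := (uniq (zl_dvd_bs z ρ) hd (e := 0) (d := th (n.rule p.1).o0) (by omega)
        (by omega) (by omega)).2
      omega
    · have := (uniq (zl_dvd_bs z ρ) hd (e := 0) (d := th (n.rule p.1).o1) (by omega)
        (by omega) (by omega)).2
      omega
    · have := (uniq (zl_dvd_bs z ρ) hd (e := 0) (d := th (n.rule p.1).o2) (by omega)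
        (by omega) (by omega)).2
      omega
    · omega
    · have := (uniq (zl_dvd_bs z ρ) hd1 (e := 0) (d := 1) (by omega)
        (by omega) (by omega)).2
      omega
  · intro he
    exact ⟨by omega, Or.inr (Or.inr (Or.inr (Or.inl (by omega))))⟩

/-- `s` is an input place of the rule -/
def inP (R : Rule) (s : ℕ) : Prop := s = R.i0 ∨ s = R.i1 ∨ s = R.i2

/-- `s` is an output place of the rule -/
def outP (R : Rule) (s : ℕ) : Prop := s = R.o0 ∨ s = R.o1 ∨ s = R.o2

instance (R : Rule) (s : ℕ) : Decidable (inP R s) := by unfold inP; infer_instance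

instance (R : Rule) (s : ℕ) : Decidable (outP R s) := by unfold outP; infer_instance

include hn h in
theorem zR_place {z ρ s : ℕ} (hs : s < n.a) : zR n tR (bs n z ρ + th s) =
    (tR.filter (fun p => decide (p.2 = bs n z ρ))).countP
      (fun p => decide (inP (n.rule p.1) s)) := by
  have hz := zl_pos (n := n)
  rw [List.countP_filter]
  unfold zR
  apply List.countP_congr
  intro p hp
  have hd := start_dvd hn h hp
  have hI := hn.rI p.1 (h.bR p hp).1
  have hlt := th_lt hs
  have hps := th_pos s
  simp only [decide_eq_true_eq, Bool.and_eq_true]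
  rw [mem_Z]
  unfold inP
  constructor
  · rintro ⟨hle, hm⟩
    rcases hm with hm | hm | hm | hm | hm
    · have := (uniq (zl_dvd_bs z ρ) hd (e := th s) (d := 0) (by omega) (by omega) (by omega)).2
      omega
    · have := (uniq (zl_dvd_bs z ρ) hd (e := th s) (d := 1) (by omega) (by omega) (by omega)).2
      omega
    · have := uniq (zl_dvd_bs z ρ) hd (e := th s) (d := th (n.rule p.1).i0) (by omega)
        (th_lt (by omega)) (by omega)
      exact ⟨Or.inl (th_inj this.2), this.1⟩
    · have := uniq (zl_dvd_bs z ρ) hd (e := th s) (d := th (n.rule p.1).i1) (by omega)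
        (th_lt (by omega)) (by omega)
      exact ⟨Or.inr (Or.inl (th_inj this.2)), this.1⟩
    · have := uniq (zl_dvd_bs z ρ) hd (e := th s) (d := th (n.rule p.1).i2) (by omega)
        (th_lt (by omega)) (by omega)
      exact ⟨Or.inr (Or.inr (th_inj this.2)), this.1⟩
  · rintro ⟨h1, h2⟩
    refine ⟨by omega, ?_⟩
    have e : bs n z ρ + th s - p.2 = th s := by omega
    rw [e]
    rcases h1 with h1 | h1 | h1 <;> rw [← h1] <;> simp

include hn h in
theorem aR_place {z ρ s : ℕ} (hs : s < n.a) : aR n tR (bs n z ρ + th s + n.P) =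
    (tR.filter (fun p => decide (p.2 = bs n z ρ))).countP
      (fun p => decide (outP (n.rule p.1) s)) := by
  have hz := zl_pos (n := n)
  have hPz := P_pos hn
  rw [List.countP_filter]
  unfold aR
  apply List.countP_congr
  intro p hp
  have hd := start_dvd hn h hp
  have hO := hn.rO p.1 (h.bR p hp).1
  have hlt := th_lt hs
  have hps := th_pos s
  have hd1 : n.zl ∣ p.2 + n.P := Dvd.dvd.add hd zl_dvd_P
  simp only [decide_eq_true_eq, Bool.and_eq_true]
  rw [mem_A]
  unfold outP
  constructor
  · rintro ⟨hle, hm⟩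
    rcases hm with hm | hm | hm | hm | hm
    · have := uniq (zl_dvd_bs z ρ) hd (e := th s) (d := th (n.rule p.1).o0) (by omega)
        (th_lt (by omega)) (by omega)
      exact ⟨Or.inl (th_inj this.2), this.1⟩
    · have := uniq (zl_dvd_bs z ρ) hd (e := th s) (d := th (n.rule p.1).o1) (by omega)
        (th_lt (by omega)) (by omega)
      exact ⟨Or.inr (Or.inl (th_inj this.2)), this.1⟩
    · have := uniq (zl_dvd_bs z ρ) hd (e := th s) (d := th (n.rule p.1).o2) (by omega)
        (th_lt (by omega)) (by omega)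
      exact ⟨Or.inr (Or.inr (th_inj this.2)), this.1⟩
    · have := (uniq (zl_dvd_bs z ρ) hd1 (e := th s) (d := 0) (by omega) (by omega) (by omega)).2
      omega
    · have := (uniq (zl_dvd_bs z ρ) hd1 (e := th s) (d := 1) (by omega) (by omega) (by omega)).2
      omega
  · rintro ⟨h1, h2⟩
    refine ⟨by omega, ?_⟩
    have e : bs n z ρ + th s + n.P - p.2 = n.P + th s := by omega
    rw [e]
    rcases h1 with h1 | h1 | h1 <;> rw [← h1] <;> simp

theorem Ic_ctl {z : ℕ} (hz : z < n.Zn) : n.Ic (bs n z 0) = 1 := by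
  have hzl := zl_pos (n := n)
  have e : bs n z 0 = z * n.zl := by unfold bs; ring
  rw [e]
  unfold Net.Ic
  have key : ∀ z' ∈ Finset.range n.Zn, ((if z * n.zl = z' * n.zl then 1 else 0) +
      (if z * n.zl = z' * n.zl + 1 then 1 else 0) +
      ∑ s ∈ Finset.range n.a, if z * n.zl = z' * n.zl + th s then n.c0 z' s else 0) =
      if z = z' then 1 else 0 := by
    intro z' _
    have h1 : ¬ z * n.zl = z' * n.zl + 1 := by
      intro hh
      have := (uniq (Dvd.intro_left z rfl) (Dvd.intro_left z' rfl) (e := 0) (d := 1) (by omega)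
        (by omega) (by omega : z * n.zl + 0 = z' * n.zl + 1)).2
      omega
    rw [if_neg h1]
    rw [Finset.sum_eq_zero]
    · by_cases hzz : z = z'
      · rw [if_pos (by rw [hzz]), if_pos hzz]
        rfl
      · have : ¬ z * n.zl = z' * n.zl := fun hh => hzz (Nat.eq_of_mul_eq_mul_right (by omega) hh)
        rw [if_neg this, if_neg hzz]
        rfl
    · intro s hs
      rw [if_neg]
      intro hh
      have := (uniq (Dvd.intro_left z rfl) (Dvd.intro_left z' rfl) (e := 0) (d := th s) (by omega)
        (th_lt (Finset.mem_range.1 hs)) (by omega : z * n.zl + 0 = z' * n.zl + th s)).2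
      have := th_pos s
      omega
  rw [Finset.sum_congr rfl key]
  simp [hz]

theorem Ic_place {z s : ℕ} (hz : z < n.Zn) (hs : s < n.a) :
    n.Ic (bs n z 0 + th s) = n.c0 z s := by
  have hzl := zl_pos (n := n)
  have hps := th_pos s
  have hlt := th_lt hs
  have e : bs n z 0 = z * n.zl := by unfold bs; ring
  rw [e]
  unfold Net.Ic
  have key : ∀ z' ∈ Finset.range n.Zn, ((if z * n.zl + th s = z' * n.zl then 1 else 0) +
      (if z * n.zl + th s = z' * n.zl + 1 then 1 else 0) +
      ∑ s' ∈ Finset.range n.a, if z * n.zl + th s = z' * n.zl + th s' then n.c0 z' s' else 0) =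
      if z = z' then n.c0 z s else 0 := by
    intro z' _
    have h0 : ¬ z * n.zl + th s = z' * n.zl := by
      intro hh
      have := (uniq (Dvd.intro_left z rfl) (Dvd.intro_left z' rfl) (e := th s) (d := 0) (by omega)
        (by omega) (by omega : z * n.zl + th s = z' * n.zl + 0)).2
      omega
    have h1 : ¬ z * n.zl + th s = z' * n.zl + 1 := by
      intro hh
      have := (uniq (Dvd.intro_left z rfl) (Dvd.intro_left z' rfl) (e := th s) (d := 1) (by omega)
        (by omega) hh).2
      omega
    rw [if_neg h0, if_neg h1]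
    have h2 : ∀ s' ∈ Finset.range n.a, (if z * n.zl + th s = z' * n.zl + th s' then n.c0 z' s'
        else 0) = if s' = s then (if z = z' then n.c0 z s else 0) else 0 := by
      intro s' hs'
      by_cases hh : z * n.zl + th s = z' * n.zl + th s'
      · have := uniq (Dvd.intro_left z rfl) (Dvd.intro_left z' rfl) (by omega)
          (th_lt (Finset.mem_range.1 hs')) hh
        have hzz : z = z' := (Nat.eq_of_mul_eq_mul_right (by omega) this.1).symm
        have hss : s' = s := (th_inj this.2).symm
        rw [if_pos hh, if_pos hss, if_pos hzz, hzz, hss]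
      · rw [if_neg hh]
        by_cases hss : s' = s
        · by_cases hzz : z = z'
          · exact absurd (by rw [hss, hzz]) hh
          · rw [if_pos hss, if_neg hzz]
        · rw [if_neg hss]
    rw [Finset.sum_congr rfl h2]
    simp [hs]
  rw [Finset.sum_congr rfl key]
  simp [hz]

theorem Fc_place {z s : ℕ} (hz : z < n.Zn) (hs : s < n.a) :
    n.Fc (bs n z n.Cyc + th s) = n.cf z s := by
  have hzl := zl_pos (n := n)
  have hps := th_pos s
  have hlt := th_lt hs
  have e : bs n z n.Cyc = n.Cyc * n.P + z * n.zl := rfl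
  rw [e]
  unfold Net.Fc
  have key : ∀ z' ∈ Finset.range n.Zn,
      ((if n.Cyc * n.P + z * n.zl + th s = n.Cyc * n.P + z' * n.zl then 1 else 0) +
      (if n.Cyc * n.P + z * n.zl + th s = n.Cyc * n.P + z' * n.zl + 1 then 1 else 0) +
      ∑ s' ∈ Finset.range n.a, if n.Cyc * n.P + z * n.zl + th s =
        n.Cyc * n.P + z' * n.zl + th s' then n.cf z' s' else 0) =
      if z = z' then n.cf z s else 0 := by
    intro z' _
    have h0 : ¬ n.Cyc * n.P + z * n.zl + th s = n.Cyc * n.P + z' * n.zl := by
      intro hh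
      have := (uniq (Dvd.intro_left z rfl) (Dvd.intro_left z' rfl) (e := th s) (d := 0) (by omega)
        (by omega) (by omega : z * n.zl + th s = z' * n.zl + 0)).2
      omega
    have h1 : ¬ n.Cyc * n.P + z * n.zl + th s = n.Cyc * n.P + z' * n.zl + 1 := by
      intro hh
      have := (uniq (Dvd.intro_left z rfl) (Dvd.intro_left z' rfl) (e := th s) (d := 1) (by omega)
        (by omega) (by omega : z * n.zl + th s = z' * n.zl + 1)).2
      omega
    rw [if_neg h0, if_neg h1]
    have h2 : ∀ s' ∈ Finset.range n.a, (if n.Cyc * n.P + z * n.zl + th s =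
        n.Cyc * n.P + z' * n.zl + th s' then n.cf z' s'
        else 0) = if s' = s then (if z = z' then n.cf z s else 0) else 0 := by
      intro s' hs'
      by_cases hh : n.Cyc * n.P + z * n.zl + th s = n.Cyc * n.P + z' * n.zl + th s'
      · have := uniq (Dvd.intro_left z rfl) (Dvd.intro_left z' rfl) (by omega)
          (th_lt (Finset.mem_range.1 hs')) (by omega : z * n.zl + th s = z' * n.zl + th s')
        have hzz : z = z' := (Nat.eq_of_mul_eq_mul_right (by omega) this.1).symm
        have hss : s' = s := (th_inj this.2).symm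
        rw [if_pos hh, if_pos hss, if_pos hzz, hzz, hss]
      · rw [if_neg hh]
        by_cases hss : s' = s
        · by_cases hzz : z = z'
          · exact absurd (by rw [hss, hzz]) hh
          · rw [if_pos hss, if_neg hzz]
        · rw [if_neg hss]
    rw [Finset.sum_congr rfl h2]
    simp [hs]
  rw [Finset.sum_congr rfl key]
  simp [hz]

include hn h in
/-- in the first round only the initial tokens are present -/
theorem cA_first {t : ℕ} (ht : t < n.P) : n.cA tT tR t = n.Ic t := by
  rw [cA_eq]
  have h1 : tT.countP (fun t0 => decide (t0 + n.P = t)) = 0 := by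
    rw [List.countP_eq_zero]
    intro x _
    simp only [decide_eq_true_eq]
    omega
  have h2 : aR n tR t = 0 := by
    unfold aR
    rw [List.countP_eq_zero]
    intro p hp
    simp only [decide_eq_true_eq, mem_A]
    rintro ⟨hle, hm⟩
    omega
  omega

include hn h in
/-- in the last round only the final tokens are taken -/
theorem cA_last {t : ℕ} (ht : n.Cyc * n.P ≤ t) : n.cA tT tR t = n.Fc t := by
  have hPz := P_pos hn
  have hz := zl_pos (n := n)
  have hE : n.E + 1 = n.Cyc * n.P + n.P := by
    unfold Net.E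
    have e : (n.Cyc + 1) * n.P = n.Cyc * n.P + n.P := by ring
    omega
  rw [h.bal, cZ_eq]
  have h1 : tT.count t = 0 := by
    rw [List.count_eq_zero]
    intro hm
    have := h.bT t hm
    omega
  have h2 : zR n tR t = 0 := by
    unfold zR
    rw [List.countP_eq_zero]
    intro p hp
    have hb := h.bR p hp
    have hI := hn.rI p.1 hb.1
    have hlt := th_lt (n := n) (s := (n.rule p.1).i0) (by omega)
    have hlt1 := th_lt (n := n) (s := (n.rule p.1).i1) (by omega)
    have hlt2 := th_lt (n := n) (s := (n.rule p.1).i2) (by omega)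
    simp only [decide_eq_true_eq, mem_Z]
    rintro ⟨hle, hm⟩
    omega
  omega

include hn h in
/-- control tokens: at most one rule of a zone starts in a round -/
theorem ctl {z : ℕ} (hz : z < n.Zn) : ∀ ρ ≤ n.Cyc, n.cA tT tR (bs n z ρ) +
    tR.countP (fun p => decide (p.2 + n.P = bs n z ρ)) = 1 := by
  have hzl := zl_pos (n := n)
  intro ρ
  induction ρ with
  | zero =>
    intro _
    have hlt := lt_P (n := n) hz (d := 0) (by omega)
    have e : bs n z 0 = z * n.zl := by unfold bs; ring
    rw [cA_first hn h (by omega), Ic_ctl hz]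
    have h1 : tR.countP (fun p => decide (p.2 + n.P = bs n z 0)) = 0 := by
      rw [List.countP_eq_zero]
      intro x _
      simp only [decide_eq_true_eq]
      omega
    omega
  | succ ρ ih =>
    intro hρ
    have ih' := ih (by omega)
    have hr := recur hn h (t := bs n z ρ) (by simpa using bs_lt hz (by omega) (d := 0) (by omega))
    rw [← bs_succ, zR_ctl hn h, aR_ctl hn h hz] at hr
    have e : tR.countP (fun p => decide (p.2 + n.P = bs n z (ρ + 1))) =
        tR.countP (fun p => decide (p.2 = bs n z ρ)) := by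
      apply List.countP_congr
      intro p _
      simp only [decide_eq_true_eq]
      rw [bs_succ]
      omega
    rw [e]
    omega

include hn h in
theorem one_rule {z ρ : ℕ} (hz : z < n.Zn) (hρ : ρ < n.Cyc) :
    (tR.filter (fun p => decide (p.2 = bs n z ρ))).length ≤ 1 := by
  have h1 := ctl hn h hz ρ hρ.le
  have h2 := h.bal (bs n z ρ)
  rw [cZ_eq, zR_ctl hn h] at h2
  rw [← List.countP_eq_length_filter]
  omega

include hn h in
/-- the runs of one zone -/
theorem zone_run {z : ℕ} (hz : z < n.Zn) : ∀ ρ ≤ n.Cyc, ∃ is m', (∀ i ∈ is, i < n.r) ∧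
    Fires n.rule (n.c0 z) is m' ∧ ∀ s < n.a, m' s = n.cA tT tR (bs n z ρ + th s) := by
  intro ρ
  induction ρ with
  | zero =>
    intro _
    refine ⟨[], n.c0 z, by simp, Fires.nil _, fun s hs => ?_⟩
    have hlt := lt_P (n := n) hz (th_lt hs)
    have e : bs n z 0 = z * n.zl := by unfold bs; ring
    rw [cA_first hn h (by omega), Ic_place hz hs]
  | succ ρ ih =>
    intro hρ
    obtain ⟨is, m', h1, h2, h3⟩ := ih (by omega)
    have hrec : ∀ s < n.a, n.cA tT tR (bs n z (ρ + 1) + th s) +
        (tR.filter (fun p => decide (p.2 = bs n z ρ))).countP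
          (fun p => decide (inP (n.rule p.1) s)) = n.cA tT tR (bs n z ρ + th s) +
        (tR.filter (fun p => decide (p.2 = bs n z ρ))).countP
          (fun p => decide (outP (n.rule p.1) s)) := by
      intro s hs
      have hr := recur hn h (t := bs n z ρ + th s) (bs_lt hz (by omega) (th_lt hs))
      rw [zR_place hn h hs, aR_place hn h hs] at hr
      have e : bs n z (ρ + 1) + th s = bs n z ρ + th s + n.P := by rw [bs_succ]; ring
      rw [e]
      exact hr
    have hone := one_rule hn h hz (ρ := ρ) (by omega)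
    rcases hf : tR.filter (fun p => decide (p.2 = bs n z ρ)) with _ | ⟨p, _ | ⟨q, l⟩⟩
    · rw [hf] at hrec
      refine ⟨is, m', h1, h2, fun s hs => ?_⟩
      have := hrec s hs
      simp only [List.countP_nil, add_zero] at this
      rw [this, h3 s hs]
    · rw [hf] at hrec
      have hp : p ∈ tR ∧ p.2 = bs n z ρ := by
        have : p ∈ tR.filter (fun p => decide (p.2 = bs n z ρ)) := by rw [hf]; simp
        rw [List.mem_filter] at this
        exact ⟨this.1, by simpa using this.2⟩
      have hb := h.bR p hp.1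
      have hI := hn.rI p.1 hb.1
      have hL := hn.rl p.1 hb.1
      have hen : (n.rule p.1).En m' := by
        refine ⟨?_, ?_, ?_, ?_⟩
        · rw [h3 _ (by omega), ← hp.2]
          exact rule_pos h hp.1 _ (by simp [mem_Z])
        · rw [h3 _ (by omega), ← hp.2]
          exact rule_pos h hp.1 _ (by simp [mem_Z])
        · rw [h3 _ (by omega), ← hp.2]
          exact rule_pos h hp.1 _ (by simp [mem_Z])
        · rw [h3 _ hL, ← hp.2]
          exact h.blk p hp.1
      have happ : ∀ (is : List ℕ) (m m' : ℕ → ℕ), Fires n.rule m is m' → (n.rule p.1).En m' →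
          Fires n.rule m (is ++ [p.1]) ((n.rule p.1).fire m') := by
        intro is m m' hF hE
        induction hF with
        | nil m => exact Fires.cons _ _ _ _ hE (Fires.nil _)
        | cons m i is m' hh hh' ihh => exact Fires.cons _ _ _ _ hh (ihh hE)
      refine ⟨is ++ [p.1], (n.rule p.1).fire m', ?_, happ is _ _ h2 hen, fun s hs => ?_⟩
      · intro i hi
        rcases List.mem_append.1 hi with hi | hi
        · exact h1 i hi
        · rw [List.mem_singleton.1 hi]
          exact hb.1
      · have := hrec s hs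
        rw [List.countP_singleton, List.countP_singleton] at this
        unfold Rule.fire
        have hin : (if s = (n.rule p.1).i0 ∨ s = (n.rule p.1).i1 ∨ s = (n.rule p.1).i2 then 1
            else 0) = if decide (inP (n.rule p.1) s) = true then 1 else 0 := by
          by_cases hc : inP (n.rule p.1) s
          · exact (if_pos hc).trans (if_pos (decide_eq_true hc)).symm
          · exact (if_neg hc).trans (if_neg (by simpa using hc)).symm
        have hout : (if s = (n.rule p.1).o0 ∨ s = (n.rule p.1).o1 ∨ s = (n.rule p.1).o2 then 1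
            else 0) = if decide (outP (n.rule p.1) s) = true then 1 else 0 := by
          by_cases hc : outP (n.rule p.1) s
          · exact (if_pos hc).trans (if_pos (decide_eq_true hc)).symm
          · exact (if_neg hc).trans (if_neg (by simpa using hc)).symm
        rw [hin, hout, h3 s hs]
        have hpos : (if decide (inP (n.rule p.1) s) = true then 1 else 0) ≤
            n.cA tT tR (bs n z ρ + th s) := by
          split_ifs with hc
          · rw [← h3 s hs]
            have hc' : inP (n.rule p.1) s := of_decide_eq_true hc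
            rcases hc' with hc | hc | hc <;> rw [hc]
            · exact hen.1
            · exact hen.2.1
            · exact hen.2.2.1
          · exact Nat.zero_le _
        omega
    · rw [hf] at hone
      simp at hone

end

end HMod

theorem runs_of_tps (n : Net) (hn : n.Ok) (tT : List ℕ) (tR : List (ℕ × ℕ)) (h : n.TPS tT tR) :
    ∀ z < n.Zn, ∃ is m', (∀ i ∈ is, i < n.r) ∧ Fires n.rule (n.c0 z) is m' ∧
      ∀ s < n.a, m' s = n.cf z s := by
  intro z hz
  obtain ⟨is, m', h1, h2, h3⟩ := HMod.zone_run hn h hz n.Cyc le_rfl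
  refine ⟨is, m', h1, h2, fun s hs => ?_⟩
  rw [h3 s hs, HMod.cA_last hn h, HMod.Fc_place hz hs]
  unfold HMod.bs
  omega

end Pool.Agent.helper66.JS
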