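import Pool.Agent.helper14.JS.V0

/-!
# Module V1: soundness of the token machine `tokV`
-/

set_option autoImplicit false

namespace Pool.Agent.helper66.JS

namespace V1

/-! ### codes of states -/

theorem dig {n a b a' b' : ℕ} (ha : a < n) (ha' : a' < n) (e : a + n * b = a' + n * b') :
    a = a' ∧ b = b' := by
  have h1 : (a + n * b) % n = a := by rw [Nat.add_mul_mod_self_left, Nat.mod_eq_of_lt ha]
  have h2 : (a' + n * b') % n = a' := by rw [Nat.add_mul_mod_self_left, Nat.mod_eq_of_lt ha']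
  have : a = a' := by rw [← h1, e, h2]
  subst this
  exact ⟨rfl, Nat.eq_of_mul_eq_mul_left (by omega) (Nat.add_left_cancel e)⟩

theorem sc_inj {B Q ty d j q g h ty' d' j' q' g' h' : ℕ} (hty : ty < 8) (hty' : ty' < 8)
    (hd : d < 2) (hd' : d' < 2) (hg : g < B) (hg' : g' < B) (hh : h < B) (hh' : h' < B)
    (hq : q < Q) (hq' : q' < Q) (e : sc B Q ty d j q g h = sc B Q ty' d' j' q' g' h') :
    ty = ty' ∧ d = d' ∧ j = j' ∧ q = q' ∧ g = g' ∧ h = h' := by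
  unfold sc at e
  obtain ⟨e1, e⟩ := dig hty hty' e
  obtain ⟨e2, e⟩ := dig hd hd' e
  obtain ⟨e3, e⟩ := dig hg hg' e
  obtain ⟨e4, e⟩ := dig hh hh' e
  obtain ⟨e5, e⟩ := dig hq hq' e
  exact ⟨e1, e2, e, e5, e3, e4⟩

/-! ### reachable configurations -/

theorem NRun.snoc {δ : NTM} {M n : ℕ} {C C' C'' : Conf} (h : NRun δ M n C C')
    (hs : NStep δ C' C'') (hp : C''.pos < M) : NRun δ M (n + 1) C C'' := by
  induction h with
  | refl C h => exact NRun.step 0 C C'' C'' h hs (NRun.refl C'' hp)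
  | step n C C1 C2 h h1 h2 ih => exact NRun.step (n + 1) C C1 C'' h h1 (ih hs)

def Rch (δ : NTM) (x : List Bool) (M : ℕ) (C : Conf) : Prop :=
  ∃ n, NRun δ M n (Conf.start x) C

/-! ### the invariant -/

def Tr (δ : NTM) (C : Conf) (q g0 d : ℕ) : Prop :=
  ∃ right : Bool, (C.q, C.tape C.pos, q, g0, right) ∈ δ ∧ d = if right then 0 else 1

def GoodS (B k : ℕ) (S : ℕ → ℕ → List ℕ) : Prop := ∀ s < 2, ∀ i < k, ∀ g ∈ S s i, g + 1 < B

def CRE (B k : ℕ) (S : ℕ → ℕ → List ℕ) (c : ℕ → ℕ) (b : ℕ) : Prop :=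
  ∀ s < 2, ∀ i < k, 2 * i + s ≠ b → c (2 * i + s) = encL B (S s i)

theorem CRE.congr {B k : ℕ} {S : ℕ → ℕ → List ℕ} {c c' : ℕ → ℕ} {b : ℕ} (h : CRE B k S c b)
    (hc : ∀ s < 2 * k, s ≠ b → c' s = c s) : CRE B k S c' b := by
  intro s hs i hi hb
  rw [hc _ (by omega) hb]
  exact h s hs i hi hb

def InvT (δ : NTM) (B k ℓ : ℕ) (x : List Bool) (ty d j q g h : ℕ) (c : ℕ → ℕ) : Prop :=
  match ty with
  | 0 => d = 0 ∧ h = 0 ∧ ∃ C S, Rch δ x (k * ℓ) C ∧ C.q = q ∧ g = C.tape C.pos + 1 ∧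
      Rep k ℓ C j S ∧ GoodS B k S ∧ CR B k S c ∧ c (2 * k) = 0
  | 1 => ∃ C S g0 m, Rch δ x (k * ℓ) C ∧ Tr δ C q g0 d ∧ g = g0 + 1 ∧
      Rep k ℓ C j S ∧ GoodS B k S ∧ CRE B k S c (2 * j + d) ∧
      encL B (S d j) = c (2 * j + d) + m ∧ c (2 * k) + h = B * m
  | 2 => ∃ C S g0, Rch δ x (k * ℓ) C ∧ Tr δ C q g0 d ∧ g = g0 + 1 ∧
      Rep k ℓ C j S ∧ GoodS B k S ∧ CRE B k S c (2 * j + d) ∧ h = 0 ∧
      c (2 * j + d) + c (2 * k) = B * encL B (S d j)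
  | 3 => ∃ C S g0, Rch δ x (k * ℓ) C ∧ Tr δ C q g0 d ∧ g0 + 1 < B ∧
      Rep k ℓ C j S ∧ GoodS B k S ∧ CRE B k S c (2 * j + d) ∧ h = 0 ∧ c (2 * k) = 0 ∧
      c (2 * j + d) + g = (g0 + 1) + B * encL B (S d j)
  | 4 => ∃ C S g0, Rch δ x (k * ℓ) C ∧ Tr δ C q g0 d ∧
      Mid k ℓ C d g0 j S ∧ GoodS B k S ∧ CRE B k S c (2 * j + (1 - d)) ∧ g = 0 ∧
      c (2 * j + (1 - d)) + h + B * c (2 * k) = encL B (S (1 - d) j)
  | 5 => ∃ C S g0 g' l, Rch δ x (k * ℓ) C ∧ Tr δ C q g0 d ∧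
      Mid k ℓ C d g0 j S ∧ GoodS B k S ∧ CRE B k S c (2 * j + (1 - d)) ∧ g = 0 ∧
      S (1 - d) j = g' :: l ∧ h = g' + 1 ∧ c (2 * j + (1 - d)) + c (2 * k) = encL B l
  | 6 => Accepts δ x
  | _ => False

structure Bd (B Q k ty d j q g h : ℕ) : Prop where
  ty : ty < 8
  d : d < 2
  j : j < k
  q : q < Q
  g : g < B
  h : h < B

def Inv (δ : NTM) (B Q k ℓ : ℕ) (x : List Bool) (p : ℕ) (c : ℕ → ℕ) : Prop :=
  ∃ ty d j q g h, Bd B Q k ty d j q g h ∧ p = sc B Q ty d j q g h ∧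
    InvT δ B k ℓ x ty d j q g h c

variable {δ : NTM} {B Q k ℓ : ℕ} {x : List Bool}

theorem Inv.inv {ty d j q g h : ℕ} {c : ℕ → ℕ}
    (hI : Inv δ B Q k ℓ x (sc B Q ty d j q g h) c) (hb : Bd B Q k ty d j q g h) :
    InvT δ B k ℓ x ty d j q g h c := by
  obtain ⟨ty', d', j', q', g', h', hb', e, hT⟩ := hI
  obtain ⟨rfl, rfl, rfl, rfl, rfl, rfl⟩ := sc_inj hb.ty hb'.ty hb.d hb'.d hb.g hb'.g hb.h hb'.h
    hb.q hb'.q e
  exact hT

/-- the new counters -/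
def mv (c : ℕ → ℕ) (a b : ℕ) : ℕ → ℕ :=
  fun s => c s - (if s = a then 1 else 0) + (if s = b then 1 else 0)

theorem mv_same {c : ℕ → ℕ} {a : ℕ} (h : 0 < c a) : mv c a a = c := by
  funext s
  unfold mv
  by_cases hs : s = a
  · subst hs
    rw [if_pos rfl]
    omega
  · rw [if_neg hs]
    rfl

theorem mv_src {c : ℕ → ℕ} {a b : ℕ} (h : a ≠ b) : mv c a b a = c a - 1 := by
  unfold mv
  rw [if_pos rfl, if_neg h]
  rfl

theorem mv_dst {c : ℕ → ℕ} {a b : ℕ} (h : a ≠ b) : mv c a b b = c b + 1 := by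
  unfold mv
  rw [if_pos rfl, if_neg (Ne.symm h)]
  rfl

theorem mv_other {c : ℕ → ℕ} {a b s : ℕ} (h : s ≠ a) (h' : s ≠ b) : mv c a b s = c s := by
  unfold mv
  rw [if_neg h, if_neg h']
  rfl

theorem dir_lt (right : Bool) : (if right then 0 else 1) < 2 := by cases right <;> decide

/-- rule 0 -/
theorem r0 (hB : BOk δ B Q) {j q1 g1 q2 g2 : ℕ} {right : Bool} {c : ℕ → ℕ}
    (hm : (q1, g1, q2, g2, right) ∈ δ) (hj : j < k)
    (hI : Inv δ B Q k ℓ x (sc B Q 0 0 j q1 (g1 + 1) 0) c) :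
    Inv δ B Q k ℓ x (sc B Q 1 (if right then 0 else 1) j q2 (g2 + 1) 0) c := by
  have hst := hB.st _ hm
  have hsy := hB.sy _ hm
  have h4 := hB.B4
  simp only at hst hsy
  have hI' := hI.inv ⟨by omega, by omega, hj, hst.1, hsy.1, by omega⟩
  obtain ⟨-, -, C, S, h1, h2, h3, h4, h5, h6, h7⟩ := hI'
  refine ⟨1, (if right then 0 else 1), j, q2, g2 + 1, 0,
    ⟨by omega, dir_lt right, hj, hst.2, hsy.2, by omega⟩, rfl, C, S, g2, 0, h1,
    ⟨right, ?_, rfl⟩, rfl, h4, h5, ?_, ?_, ?_⟩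
  · rw [h2]
    have : C.tape C.pos = g1 := by omega
    rw [this]
    exact hm
  · intro s hs i hi _
    exact h6 s hs i hi
  · rw [h6 _ (dir_lt right) j hj]
    rfl
  · rw [h7]
    rfl

/-- rule 1 -/
theorem r1 {d j q g : ℕ} {c : ℕ → ℕ} (hB : 4 ≤ B)
    (hd : d < 2) (hj : j < k) (hq : q < Q) (hg : g < B) (hc : 0 < c (2 * j + d))
    (hI : Inv δ B Q k ℓ x (sc B Q 1 d j q g 0) c) :
    Inv δ B Q k ℓ x (sc B Q 1 d j q g (B - 1)) (mv c (2 * j + d) (2 * k)) := by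
  obtain ⟨C, S, g0, m, h1, h2, h3, h4, h5, h6, h7, h8⟩ :=
    hI.inv ⟨by omega, hd, hj, hq, hg, by omega⟩
  have hne : 2 * j + d ≠ 2 * k := by omega
  refine ⟨1, d, j, q, g, B - 1, ⟨by omega, hd, hj, hq, hg, by omega⟩, rfl, C, S, g0, m + 1, h1, h2,
    h3, h4, h5, h6.congr fun s hs hsb => mv_other hsb (by omega), ?_, ?_⟩
  · rw [mv_src hne]
    omega
  · rw [mv_dst hne, Nat.mul_succ]
    omega

/-- rule 2 -/
theorem r2 {d j q g h : ℕ} {c : ℕ → ℕ}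
    (hd : d < 2) (hj : j < k) (hq : q < Q) (hg : g < B) (hh : h < B) (hh1 : 1 ≤ h)
    (hI : Inv δ B Q k ℓ x (sc B Q 1 d j q g h) c) :
    Inv δ B Q k ℓ x (sc B Q 1 d j q g (h - 1)) (mv c (2 * k + 1) (2 * k)) := by
  obtain ⟨C, S, g0, m, h1, h2, h3, h4, h5, h6, h7, h8⟩ :=
    hI.inv ⟨by omega, hd, hj, hq, hg, hh⟩
  refine ⟨1, d, j, q, g, h - 1, ⟨by omega, hd, hj, hq, hg, by omega⟩, rfl, C, S, g0, m, h1, h2,
    h3, h4, h5, h6.congr fun s hs hsb => mv_other (by omega) (by omega), ?_, ?_⟩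
  · rw [mv_other (by omega) (by omega)]
    exact h7
  · rw [mv_dst (by omega)]
    omega

/-- rule 3 -/
theorem r3 {d j q g : ℕ} {c : ℕ → ℕ} (hB : 4 ≤ B)
    (hd : d < 2) (hj : j < k) (hq : q < Q) (hg : g < B) (hc : c (2 * j + d) = 0)
    (hI : Inv δ B Q k ℓ x (sc B Q 1 d j q g 0) c) :
    Inv δ B Q k ℓ x (sc B Q 2 d j q g 0) c := by
  obtain ⟨C, S, g0, m, h1, h2, h3, h4, h5, h6, h7, h8⟩ :=
    hI.inv ⟨by omega, hd, hj, hq, hg, by omega⟩
  refine ⟨2, d, j, q, g, 0, ⟨by omega, hd, hj, hq, hg, by omega⟩, rfl, C, S, g0, h1, h2,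
    h3, h4, h5, h6, rfl, ?_⟩
  rw [h7, hc, zero_add, zero_add, ← h8]
  rfl

/-- rule 4 -/
theorem r4 {d j q g : ℕ} {c : ℕ → ℕ} (hB : 4 ≤ B)
    (hd : d < 2) (hj : j < k) (hq : q < Q) (hg : g < B) (hc : 0 < c (2 * k))
    (hI : Inv δ B Q k ℓ x (sc B Q 2 d j q g 0) c) :
    Inv δ B Q k ℓ x (sc B Q 2 d j q g 0) (mv c (2 * k) (2 * j + d)) := by
  obtain ⟨C, S, g0, h1, h2, h3, h4, h5, h6, h7, h8⟩ :=
    hI.inv ⟨by omega, hd, hj, hq, hg, by omega⟩
  have hne : 2 * k ≠ 2 * j + d := by omega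
  refine ⟨2, d, j, q, g, 0, ⟨by omega, hd, hj, hq, hg, by omega⟩, rfl, C, S, g0, h1, h2,
    h3, h4, h5, h6.congr fun s hs hsb => mv_other (by omega) hsb, rfl, ?_⟩
  rw [mv_dst hne, mv_src hne, ← h8]
  omega

/-- rule 5 -/
theorem r5 {d j q g : ℕ} {c : ℕ → ℕ} (hB : 4 ≤ B)
    (hd : d < 2) (hj : j < k) (hq : q < Q) (hg : g < B) (hc : c (2 * k) = 0)
    (hI : Inv δ B Q k ℓ x (sc B Q 2 d j q g 0) c) :
    Inv δ B Q k ℓ x (sc B Q 3 d j q g 0) c := by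
  obtain ⟨C, S, g0, h1, h2, h3, h4, h5, h6, h7, h8⟩ :=
    hI.inv ⟨by omega, hd, hj, hq, hg, by omega⟩
  refine ⟨3, d, j, q, g, 0, ⟨by omega, hd, hj, hq, hg, by omega⟩, rfl, C, S, g0, h1, h2,
    by omega, h4, h5, h6, rfl, hc, ?_⟩
  omega

/-- rule 6 -/
theorem r6 {d j q g : ℕ} {c : ℕ → ℕ} (hB : 4 ≤ B)
    (hd : d < 2) (hj : j < k) (hq : q < Q) (hg : g < B) (hg1 : 1 ≤ g)
    (hI : Inv δ B Q k ℓ x (sc B Q 3 d j q g 0) c) :
    Inv δ B Q k ℓ x (sc B Q 3 d j q (g - 1) 0) (mv c (2 * k + 1) (2 * j + d)) := by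
  obtain ⟨C, S, g0, h1, h2, h3, h4, h5, h6, h7, h8, h9⟩ :=
    hI.inv ⟨by omega, hd, hj, hq, hg, by omega⟩
  refine ⟨3, d, j, q, g - 1, 0, ⟨by omega, hd, hj, hq, by omega, by omega⟩, rfl, C, S, g0, h1, h2,
    h3, h4, h5, h6.congr fun s hs hsb => mv_other (by omega) hsb, rfl, ?_, ?_⟩
  · rw [mv_other (by omega) (by omega)]
    exact h8
  · rw [mv_dst (by omega)]
    omega

theorem upd_same (S : ℕ → ℕ → List ℕ) (s i : ℕ) (l : List ℕ) : upd S s i l s i = l := by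
  simp [upd]

theorem upd_other {S : ℕ → ℕ → List ℕ} {s i s' i' : ℕ} {l : List ℕ} (h : s' ≠ s ∨ i' ≠ i) :
    upd S s i l s' i' = S s' i' := by
  unfold upd
  by_cases hs : s' = s
  · subst hs
    have hi : i' ≠ i := by
      rcases h with h | h
      · exact absurd rfl h
      · exact h
    simp [hi]
  · rw [Function.update_of_ne hs]

theorem good_upd {S : ℕ → ℕ → List ℕ} {s i : ℕ} {l : List ℕ} (h : GoodS B k S)
    (hl : ∀ g ∈ l, g + 1 < B) : GoodS B k (upd S s i l) := by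
  intro s' hs' i' hi' g hg
  by_cases he : s' = s ∧ i' = i
  · obtain ⟨rfl, rfl⟩ := he
    rw [upd_same] at hg
    exact hl g hg
  · rw [upd_other (by omega)] at hg
    exact h s' hs' i' hi' g hg

/-- rule 7 -/
theorem r7 {d j q : ℕ} {c : ℕ → ℕ} (hB : 4 ≤ B)
    (hd : d < 2) (hj : j < k) (hq : q < Q)
    (hI : Inv δ B Q k ℓ x (sc B Q 3 d j q 0 0) c) :
    Inv δ B Q k ℓ x (sc B Q 4 d j q 0 0) c := by
  obtain ⟨C, S, g0, h1, h2, h3, h4, h5, h6, h7, h8, h9⟩ :=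
    hI.inv ⟨by omega, hd, hj, hq, by omega, by omega⟩
  refine ⟨4, d, j, q, 0, 0, ⟨by omega, hd, hj, hq, by omega, by omega⟩, rfl, C,
    upd S d j (g0 :: S d j), g0, h1, h2, mid_of_rep h4 d g0 hd, ?_, ?_, rfl, ?_⟩
  · apply good_upd h5
    intro g hg
    rcases List.mem_cons.1 hg with hg | hg
    · omega
    · exact h5 d hd j hj g hg
  · intro s hs i hi hb
    by_cases he : s = d ∧ i = j
    · obtain ⟨rfl, rfl⟩ := he
      rw [upd_same]
      unfold encL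
      omega
    · rw [upd_other (by omega)]
      exact h6 s hs i hi (by omega)
  · rw [upd_other (by omega), h8, ← h6 (1 - d) (by omega) j hj (by omega)]
    omega

/-- rule 8 -/
theorem r8 {d j q h : ℕ} {c : ℕ → ℕ} (hB : 4 ≤ B)
    (hd : d < 2) (hj : j < k) (hq : q < Q) (hh : h + 1 < B) (hc : 0 < c (2 * j + (1 - d)))
    (hI : Inv δ B Q k ℓ x (sc B Q 4 d j q 0 h) c) :
    Inv δ B Q k ℓ x (sc B Q 4 d j q 0 (h + 1)) (mv c (2 * j + (1 - d)) (2 * k + 1)) := by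
  obtain ⟨C, S, g0, h1, h2, h3, h4, h5, h6, h7⟩ :=
    hI.inv ⟨by omega, hd, hj, hq, by omega, by omega⟩
  refine ⟨4, d, j, q, 0, h + 1, ⟨by omega, hd, hj, hq, by omega, by omega⟩, rfl, C, S, g0, h1, h2,
    h3, h4, h5.congr fun s hs hsb => mv_other hsb (by omega), rfl, ?_⟩
  rw [mv_src (by omega), mv_other (by omega) (by omega), ← h7]
  omega

/-- rule 9 -/
theorem r9 {d j q : ℕ} {c : ℕ → ℕ} (hB : 4 ≤ B)
    (hd : d < 2) (hj : j < k) (hq : q < Q) (hc : 0 < c (2 * j + (1 - d)))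
    (hI : Inv δ B Q k ℓ x (sc B Q 4 d j q 0 (B - 1)) c) :
    Inv δ B Q k ℓ x (sc B Q 4 d j q 0 0) (mv c (2 * j + (1 - d)) (2 * k)) := by
  obtain ⟨C, S, g0, h1, h2, h3, h4, h5, h6, h7⟩ :=
    hI.inv ⟨by omega, hd, hj, hq, by omega, by omega⟩
  have hne : 2 * j + (1 - d) ≠ 2 * k := by omega
  refine ⟨4, d, j, q, 0, 0, ⟨by omega, hd, hj, hq, by omega, by omega⟩, rfl, C, S, g0, h1, h2,
    h3, h4, h5.congr fun s hs hsb => mv_other hsb (by omega), rfl, ?_⟩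
  rw [mv_src hne, mv_dst hne, ← h7, Nat.mul_succ]
  omega

/-- the first digit -/
theorem digit {l : List ℕ} {h m : ℕ} (hl : ∀ g ∈ l, g + 1 < B) (hh : h < B)
    (e : h + B * m = encL B l) :
    (h = 0 ∧ m = 0 ∧ l = []) ∨ ∃ g' l', l = g' :: l' ∧ h = g' + 1 ∧ m = encL B l' := by
  cases l with
  | nil =>
    left
    unfold encL at e
    have h0 : h = 0 := by omega
    have h1 : B * m = 0 := by omega
    rcases Nat.mul_eq_zero.1 h1 with h2 | h2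
    · omega
    · exact ⟨h0, h2, rfl⟩
  | cons g' l' =>
    right
    unfold encL at e
    obtain ⟨e1, e2⟩ := dig hh (hl g' (by simp)) e
    exact ⟨g', l', rfl, e1, e2⟩

/-- rule 10 -/
theorem r10 {d j q h : ℕ} {c : ℕ → ℕ} (hB : 4 ≤ B)
    (hd : d < 2) (hj : j < k) (hq : q < Q) (hh : h < B) (hh1 : 1 ≤ h)
    (hc : c (2 * j + (1 - d)) = 0)
    (hI : Inv δ B Q k ℓ x (sc B Q 4 d j q 0 h) c) :
    Inv δ B Q k ℓ x (sc B Q 5 d j q 0 h) c := by
  obtain ⟨C, S, g0, h1, h2, h3, h4, h5, h6, h7⟩ :=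
    hI.inv ⟨by omega, hd, hj, hq, by omega, by omega⟩
  rw [hc, zero_add] at h7
  rcases digit (h4 (1 - d) (by omega) j hj) hh h7 with ⟨e, -⟩ | ⟨g', l', e1, e2, e3⟩
  · omega
  · refine ⟨5, d, j, q, 0, h, ⟨by omega, hd, hj, hq, by omega, by omega⟩, rfl, C, S, g0, g', l',
      h1, h2, h3, h4, h5, rfl, e1, e2, ?_⟩
    rw [hc, e3]
    omega

/-- rule 11, to the right -/
theorem r11a {j q : ℕ} {c : ℕ → ℕ} (hB : 4 ≤ B) (hj : j + 1 < k) (hq : q < Q)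
    (hc : c (2 * j + 1) = 0)
    (hI : Inv δ B Q k ℓ x (sc B Q 4 0 j q 0 0) c) :
    Inv δ B Q k ℓ x (sc B Q 4 0 (j + 1) q 0 0) c := by
  obtain ⟨C, S, g0, h1, h2, h3, h4, h5, h6, h7⟩ :=
    hI.inv ⟨by omega, by omega, by omega, hq, by omega, by omega⟩
  simp only [Nat.sub_zero] at h5 h7
  rw [hc, zero_add] at h7
  rcases digit (h4 1 (by omega) j (by omega)) (by omega) h7 with ⟨-, e2, e3⟩ | ⟨g', l', e1, e2, e3⟩
  · refine ⟨4, 0, j + 1, q, 0, 0, ⟨by omega, by omega, by omega, hq, by omega, by omega⟩, rfl, C,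
      S, g0, h1, h2, mid_next0 h3 e3 hj, h4, ?_, rfl, ?_⟩
    · intro s hs i hi hb
      by_cases he : 2 * i + s = 2 * j + 1
      · have hs1 : s = 1 := by omega
        have hij : i = j := by omega
        subst hs1
        subst hij
        rw [hc, e3]
        rfl
      · exact h5 s hs i hi he
    · simp only [Nat.sub_zero]
      rw [e2, h5 1 (by omega) (j + 1) hj (by omega)]
      rfl
  · omega

/-- rule 11, to the left -/
theorem r11b {j q : ℕ} {c : ℕ → ℕ} (hB : 4 ≤ B) (hj : j < k) (hj1 : 1 ≤ j) (hq : q < Q)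
    (hc : c (2 * j + 0) = 0)
    (hI : Inv δ B Q k ℓ x (sc B Q 4 1 j q 0 0) c) :
    Inv δ B Q k ℓ x (sc B Q 4 1 (j - 1) q 0 0) c := by
  obtain ⟨C, S, g0, h1, h2, h3, h4, h5, h6, h7⟩ :=
    hI.inv ⟨by omega, by omega, by omega, hq, by omega, by omega⟩
  simp only [Nat.sub_self] at h5 h7
  rw [hc, zero_add] at h7
  rcases digit (h4 0 (by omega) j (by omega)) (by omega) h7 with ⟨-, e2, e3⟩ | ⟨g', l', e1, e2, e3⟩
  · refine ⟨4, 1, j - 1, q, 0, 0, ⟨by omega, by omega, by omega, hq, by omega, by omega⟩, rfl, C,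
      S, g0, h1, h2, mid_next1 h3 e3 hj1, h4, ?_, rfl, ?_⟩
    · intro s hs i hi hb
      by_cases he : 2 * i + s = 2 * j + 0
      · have hs1 : s = 0 := by omega
        have hij : i = j := by omega
        subst hs1
        subst hij
        rw [hc, e3]
        rfl
      · exact h5 s hs i hi he
    · simp only [Nat.sub_self]
      rw [e2, h5 0 (by omega) (j - 1) (by omega) (by omega)]
      rfl
  · omega

/-- rule 12 -/
theorem r12 {d j q h : ℕ} {c : ℕ → ℕ} (hB : 4 ≤ B)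
    (hd : d < 2) (hj : j < k) (hq : q < Q) (hh : h < B) (hc : 0 < c (2 * k))
    (hI : Inv δ B Q k ℓ x (sc B Q 5 d j q 0 h) c) :
    Inv δ B Q k ℓ x (sc B Q 5 d j q 0 h) (mv c (2 * k) (2 * j + (1 - d))) := by
  obtain ⟨C, S, g0, g', l, h1, h2, h3, h4, h5, h6, h7, h8, h9⟩ :=
    hI.inv ⟨by omega, hd, hj, hq, by omega, by omega⟩
  have hne : 2 * k ≠ 2 * j + (1 - d) := by omega
  refine ⟨5, d, j, q, 0, h, ⟨by omega, hd, hj, hq, by omega, by omega⟩, rfl, C, S, g0, g', l, h1,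
    h2, h3, h4, h5.congr fun s hs hsb => mv_other (by omega) hsb, rfl, h7, h8, ?_⟩
  rw [mv_src hne, mv_dst hne, ← h9]
  omega

theorem Rch.snoc {C C' : Conf} (h : Rch δ x (k * ℓ) C) (hs : NStep δ C C')
    (hp : C'.pos < k * ℓ) : Rch δ x (k * ℓ) C' := by
  obtain ⟨n, hn⟩ := h
  exact ⟨n + 1, NRun.snoc hn hs hp⟩

/-- rule 13 -/
theorem r13 {d j q h : ℕ} {c : ℕ → ℕ} (hB : 4 ≤ B)
    (hd : d < 2) (hj : j < k) (hq : q < Q) (hh : h < B) (hc : c (2 * k) = 0)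
    (hI : Inv δ B Q k ℓ x (sc B Q 5 d j q 0 h) c) :
    Inv δ B Q k ℓ x (sc B Q 0 0 j q h 0) c := by
  obtain ⟨C, S, g0, g', l, h1, ⟨right, h2, h2'⟩, h3, h4, h5, h6, h7, h8, h9⟩ :=
    hI.inv ⟨by omega, hd, hj, hq, by omega, by omega⟩
  have hl : ∀ g ∈ l, g + 1 < B := fun g hg => h4 (1 - d) (by omega) j hj g (by rw [h7]; simp [hg])
  have hcr : CR B k (upd S (1 - d) j l) c := by
    intro s hs i hi
    by_cases he : s = 1 - d ∧ i = j
    · obtain ⟨rfl, rfl⟩ := he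
      rw [upd_same]
      omega
    · rw [upd_other (by omega)]
      exact h5 s hs i hi (by omega)
  cases right with
  | true =>
    simp only [if_true] at h2'
    subst h2'
    obtain ⟨e1, e2⟩ := rep_of_mid0 h3 g' l h7 q
    refine ⟨0, 0, j, q, h, 0, ⟨by omega, by omega, hj, hq, hh, by omega⟩, rfl, rfl, rfl, _, _,
      h1.snoc ⟨g0, true, h2, rfl, by simp⟩ e2.pos, rfl, ?_, e2, good_upd h4 hl, hcr, hc⟩
    simp only
    rw [Function.update_of_ne (by omega), e1]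
    exact h8
  | false =>
    simp only [Bool.false_eq_true, if_false] at h2'
    subst h2'
    obtain ⟨p, e0, e1, e2⟩ := rep_of_mid1 h3 g' l h7 q
    refine ⟨0, 0, j, q, h, 0, ⟨by omega, by omega, hj, hq, hh, by omega⟩, rfl, rfl, rfl, _, _,
      h1.snoc ⟨g0, false, h2, rfl, by simpa using e0⟩ e2.pos, rfl, ?_, e2, good_upd h4 hl, hcr, hc⟩
    simp only
    rw [Function.update_of_ne (by omega), e1]
    exact h8

/-- rule 14 -/
theorem r14 {j g : ℕ} {c : ℕ → ℕ} (hB : BOk δ B Q) (hj : j < k) (hg : g < B)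
    (hI : Inv δ B Q k ℓ x (sc B Q 0 0 j 1 g 0) c) :
    Inv δ B Q k ℓ x (sc B Q 6 0 0 0 0 0) c := by
  have hB4 := hB.B4
  have hQ := hB.Q2
  obtain ⟨-, -, C, S, ⟨n, hn⟩, h2, -⟩ :=
    hI.inv ⟨by omega, by omega, hj, by omega, hg, by omega⟩
  exact ⟨6, 0, 0, 0, 0, 0, ⟨by omega, by omega, by omega, by omega, by omega, by omega⟩, rfl,
    k * ℓ, n, n, le_rfl, C, hn, h2⟩

/-- the dead state is never reached -/
theorem rdead (hB : BOk δ B Q) (hk : 0 < k) {c : ℕ → ℕ}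
    (hI : Inv δ B Q k ℓ x (sc B Q 7 0 0 0 0 0) c) : False := by
  have hB4 := hB.B4
  have hQ := hB.Q2
  exact hI.inv ⟨by omega, by omega, hk, by omega, by omega, by omega⟩

/-- `ruleV` with the numbers already decoded -/
def ruleW (δ : NTM) (B Q k ty d g h q j t : ℕ) : ℕ × ℕ × ℕ × ℕ × ℕ :=
  let X := 2 * k
  let R := 2 * k + 1
  let e := 2 * k + 2
  let f := 2 * k + 3
  let bh := 2 * j + d
  let ah := 2 * j + (1 - d)
  let dead := (sc B Q 7 0 0 0 0 0, sc B Q 7 0 0 0 0 0, e, e, f)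
  if ty = 0 then (match δ[t]? with
    | none => dead
    | some (q1, g1, q2, g2, right) =>
      (sc B Q 0 0 j q1 (g1 + 1) 0, sc B Q 1 (if right then 0 else 1) j q2 (g2 + 1) 0, e, e, f))
  else if ty = 1 then (sc B Q 1 d j q g 0, sc B Q 1 d j q g (B - 1), bh, X, f)
  else if ty = 2 then
    (if 1 ≤ h then (sc B Q 1 d j q g h, sc B Q 1 d j q g (h - 1), R, X, f) else dead)
  else if ty = 3 then (sc B Q 1 d j q g 0, sc B Q 2 d j q g 0, e, e, bh)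
  else if ty = 4 then (sc B Q 2 d j q g 0, sc B Q 2 d j q g 0, X, bh, f)
  else if ty = 5 then (sc B Q 2 d j q g 0, sc B Q 3 d j q g 0, e, e, X)
  else if ty = 6 then
    (if 1 ≤ g then (sc B Q 3 d j q g 0, sc B Q 3 d j q (g - 1) 0, R, bh, f) else dead)
  else if ty = 7 then (sc B Q 3 d j q 0 0, sc B Q 4 d j q 0 0, e, e, f)
  else if ty = 8 then
    (if h + 1 < B then (sc B Q 4 d j q 0 h, sc B Q 4 d j q 0 (h + 1), ah, R, f) else dead)
  else if ty = 9 then (sc B Q 4 d j q 0 (B - 1), sc B Q 4 d j q 0 0, ah, X, f)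
  else if ty = 10 then
    (if 1 ≤ h then (sc B Q 4 d j q 0 h, sc B Q 5 d j q 0 h, e, e, ah) else dead)
  else if ty = 11 then
    (if d = 0 then
      (if j + 1 < k then (sc B Q 4 0 j q 0 0, sc B Q 4 0 (j + 1) q 0 0, e, e, ah) else dead)
    else (if 1 ≤ j then (sc B Q 4 1 j q 0 0, sc B Q 4 1 (j - 1) q 0 0, e, e, ah) else dead))
  else if ty = 12 then (sc B Q 5 d j q 0 h, sc B Q 5 d j q 0 h, X, ah, f)
  else if ty = 13 then (sc B Q 5 d j q 0 h, sc B Q 0 0 j q h 0, e, e, X)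
  else if ty = 14 then (sc B Q 0 0 j 1 g 0, sc B Q 6 0 0 0 0 0, e, e, f)
  else dead

theorem ruleV_eq (δ : NTM) (B Q k i : ℕ) : ruleV δ B Q k i =
    ruleW δ B Q k (i % 16) (i / 16 % 2) (i / 32 % B) (i / (32 * B) % B) (i / (32 * B * B) % Q)
      (i / (32 * B * B * Q) % k) (i / (32 * B * B * Q * k)) := rfl

/-- what we prove about a rule -/
def Snd (δ : NTM) (B Q k ℓ : ℕ) (x : List Bool) (R : ℕ × ℕ × ℕ × ℕ × ℕ) : Prop :=
  ∀ c : ℕ → ℕ, Inv δ B Q k ℓ x R.1 c → 0 < c R.2.2.1 → c R.2.2.2.2 = 0 →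
    Inv δ B Q k ℓ x R.2.1 (mv c R.2.2.1 R.2.2.2.1)

theorem snd_same {p p' e l : ℕ} (h : ∀ c : ℕ → ℕ, Inv δ B Q k ℓ x p c → c l = 0 →
    Inv δ B Q k ℓ x p' c) : Snd δ B Q k ℓ x (p, p', e, e, l) := by
  intro c hI hx hl
  simp only at hI hx hl ⊢
  rw [mv_same hx]
  exact h c hI hl

theorem snd_dead (hB : BOk δ B Q) (hk : 0 < k) {p' e e' l : ℕ} :
    Snd δ B Q k ℓ x (sc B Q 7 0 0 0 0 0, p', e, e', l) := by
  intro c hI
  exact (rdead hB hk hI).elim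

theorem snd_W (hB : BOk δ B Q) (hk : 0 < k) {ty d g h q j : ℕ} (t : ℕ) (hty : ty < 16)
    (hd : d < 2) (hg : g < B) (hh : h < B) (hq : q < Q) (hj : j < k) :
    Snd δ B Q k ℓ x (ruleW δ B Q k ty d g h q j t) := by
  have hB4 := hB.B4
  interval_cases ty
  · -- 0
    show Snd δ B Q k ℓ x (match δ[t]? with
      | none => (sc B Q 7 0 0 0 0 0, sc B Q 7 0 0 0 0 0, 2 * k + 2, 2 * k + 2, 2 * k + 3)
      | some (q1, g1, q2, g2, right) =>
        (sc B Q 0 0 j q1 (g1 + 1) 0, sc B Q 1 (if right then 0 else 1) j q2 (g2 + 1) 0,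
          2 * k + 2, 2 * k + 2, 2 * k + 3))
    rcases ht : δ[t]? with _ | ⟨q1, g1, q2, g2, right⟩
    · exact snd_dead hB hk
    · exact snd_same fun c hI _ => r0 hB (List.mem_of_getElem? ht) hj hI
  · -- 1
    exact fun c hI hx _ => r1 hB4 hd hj hq hg hx hI
  · -- 2
    show Snd δ B Q k ℓ x (if 1 ≤ h then _ else _)
    split_ifs with h1
    · exact fun c hI _ _ => r2 hd hj hq hg hh h1 hI
    · exact snd_dead hB hk
  · -- 3
    exact snd_same fun c hI hl => r3 hB4 hd hj hq hg hl hI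
  · -- 4
    exact fun c hI hx _ => r4 hB4 hd hj hq hg hx hI
  · -- 5
    exact snd_same fun c hI hl => r5 hB4 hd hj hq hg hl hI
  · -- 6
    show Snd δ B Q k ℓ x (if 1 ≤ g then _ else _)
    split_ifs with h1
    · exact fun c hI _ _ => r6 hB4 hd hj hq hg h1 hI
    · exact snd_dead hB hk
  · -- 7
    exact snd_same fun c hI _ => r7 hB4 hd hj hq hI
  · -- 8
    show Snd δ B Q k ℓ x (if h + 1 < B then _ else _)
    split_ifs with h1
    · exact fun c hI hx _ => r8 hB4 hd hj hq h1 hx hI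
    · exact snd_dead hB hk
  · -- 9
    exact fun c hI hx _ => r9 hB4 hd hj hq hx hI
  · -- 10
    show Snd δ B Q k ℓ x (if 1 ≤ h then _ else _)
    split_ifs with h1
    · exact snd_same fun c hI hl => r10 hB4 hd hj hq hh h1 hl hI
    · exact snd_dead hB hk
  · -- 11
    show Snd δ B Q k ℓ x (if d = 0 then (if j + 1 < k then _ else _) else (if 1 ≤ j then _ else _))
    split_ifs with h1 h2 h2
    · subst h1
      exact snd_same fun c hI hl => r11a hB4 h2 hq hl hI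
    · exact snd_dead hB hk
    · have hd1 : d = 1 := by omega
      subst hd1
      exact snd_same fun c hI hl => r11b hB4 hj h2 hq hl hI
    · exact snd_dead hB hk
  · -- 12
    exact fun c hI hx _ => r12 hB4 hd hj hq hh hx hI
  · -- 13
    exact snd_same fun c hI hl => r13 hB4 hd hj hq hh hl hI
  · -- 14
    exact snd_same fun c hI _ => r14 hB hj hg hI
  · -- 15
    exact snd_dead hB hk

theorem run_inv (hB : BOk δ B Q) (hk : 0 < k) {g0 n : ℕ} {C C' : ℕ × (ℕ → ℕ)}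
    (h : (tokV δ B Q k g0).Run n C C') (hI : Inv δ B Q k ℓ x C.1 C.2) :
    Inv δ B Q k ℓ x C'.1 C'.2 := by
  have hB4 := hB.B4
  have hQ2 := hB.Q2
  induction h with
  | refl C => exact hI
  | step n i C C1 C2 hs hr ih =>
    apply ih
    obtain ⟨-, h1, h2, h3, h4, h5⟩ := hs
    rw [h4, h5]
    have := snd_W (ℓ := ℓ) (x := x) hB hk (ty := i % 16) (d := i / 16 % 2) (g := i / 32 % B)
      (h := i / (32 * B) % B) (q := i / (32 * B * B) % Q) (j := i / (32 * B * B * Q) % k)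
      (i / (32 * B * B * Q * k)) (Nat.mod_lt _ (by omega)) (Nat.mod_lt _ (by omega))
      (Nat.mod_lt _ (by omega)) (Nat.mod_lt _ (by omega)) (Nat.mod_lt _ (by omega))
      (Nat.mod_lt _ hk)
    rw [← ruleV_eq] at this
    exact this C.2 (by rw [h1] at hI; exact hI) h2 h3

theorem tape0_le (x : List Bool) (i : ℕ) : tape0 x i ≤ 2 := by
  unfold tape0
  split_ifs
  · cases x.getD i false <;> simp
  · exact le_rfl

theorem inv_start (hB : BOk δ B Q) (hk : 0 < k) (hℓ : 0 < ℓ) (R0 : ℕ) :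
    Inv δ B Q k ℓ x (sc B Q 0 0 0 0 (tape0 x 0 + 1) 0) (c0V B k ℓ R0 (tape0 x)) := by
  have hB4 := hB.B4
  have hQ2 := hB.Q2
  have h0 := tape0_le x 0
  refine ⟨0, 0, 0, 0, tape0 x 0 + 1, 0, ⟨by omega, by omega, hk, by omega, by omega, by omega⟩,
    rfl, rfl, rfl, Conf.start x, S0 ℓ (tape0 x), ⟨0, NRun.refl _ (Nat.mul_pos hk hℓ)⟩, rfl, rfl,
    rep_start hk hℓ x, ?_, CR_start B k ℓ R0 _, ?_⟩
  · exact rep_good (rep_start hk hℓ x) fun i => by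
      have := tape0_le x i
      show tape0 x i + 1 < B
      omega
  · unfold c0V
    rw [if_neg (by omega), if_neg (by omega), if_neg (by omega)]

end V1

theorem tokV_no (δ : NTM) (B Q k ℓ R0 : ℕ) (hB : BOk δ B Q) (hk : 0 < k) (hℓ : 0 < ℓ)
    (x : List Bool) (n : ℕ) (C : ℕ → ℕ)
    (h : (tokV δ B Q k (tape0 x 0)).Run n
      ((tokV δ B Q k (tape0 x 0)).p0, c0V B k ℓ R0 (tape0 x))
      ((tokV δ B Q k (tape0 x 0)).acc, C)) : Accepts δ x := by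
  have hI := V1.run_inv (x := x) hB hk h (V1.inv_start hB hk hℓ R0)
  have hB4 := hB.B4
  have hQ2 := hB.Q2
  exact V1.Inv.inv (ty := 6) (d := 0) (j := 0) (q := 0) (g := 0) (h := 0) hI
    ⟨by omega, by omega, hk, by omega, by omega, by omega⟩

end Pool.Agent.helper66.JS
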