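import Mathlib

set_option autoImplicit false

/-!
# Gadget core: schedules without idle time on three machines are words

Blocks `x : β` are processed on machine 1 for `a x`, then on machine 2 for `b x`, then on machine 3
for `a x` time units.  Two extra jobs `Z = (M3 : w), (M2 : w - p)` and `Z' = (M2 : p), (M1 : w)`
make the load of each machine equal to the deadline `C = ∑ a + w`.
-/

namespace Pool.Agent.helper71.JS

open Finset

/-- Intervals `[t x, t x + len x)` inside `[lo, hi]`, pairwise disjoint, have total length at most
`hi - lo`. -/
theorem packing {β : Type*} (t len : β → ℝ) (lo hi : ℝ) (hlh : lo ≤ hi) (R : Finset β)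
    (hlo : ∀ x ∈ R, lo ≤ t x) (hhi : ∀ x ∈ R, t x + len x ≤ hi)
    (hd : ∀ x ∈ R, ∀ y ∈ R, x ≠ y → t x + len x ≤ t y ∨ t y + len y ≤ t x)
    (hpos : ∀ x ∈ R, 0 < len x) :
    ∑ x ∈ R, len x ≤ hi - lo := by
  classical
  induction R using Finset.strongInduction generalizing hi with
  | H R ih =>
    rcases R.eq_empty_or_nonempty with rfl | hne
    · simpa using hlh
    · obtain ⟨y, hy, hmax⟩ := R.exists_max_image t hne
      have hsub : R.erase y ⊂ R := Finset.erase_ssubset hy
      have h := ih (R.erase y) hsub (t y) (hlo y hy)
        (fun x hx => hlo x (Finset.mem_of_mem_erase hx))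
        (fun x hx => by
          have hx' := Finset.mem_of_mem_erase hx
          have hne := Finset.ne_of_mem_erase hx
          rcases hd x hx' y hy hne with h | h
          · exact h
          · have := hmax x hx'
            have := hpos y hy
            linarith)
        (fun x hx z hz hxz => hd x (Finset.mem_of_mem_erase hx) z (Finset.mem_of_mem_erase hz) hxz)
        (fun x hx => hpos x (Finset.mem_of_mem_erase hx))
      have := hhi y hy
      rw [← Finset.add_sum_erase R len hy]
      linarith

/-- The walk condition for a word, started with backlog `u`. -/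
def Good {β : Type*} (a b : β → ℝ) (w : ℝ) : ℝ → List β → Prop
  | _, [] => True
  | u, x :: l => a x ≤ u ∧ u + b x ≤ w ∧ Good a b w (u + b x - a x) l

/-- All data of a schedule of makespan at most `C`. -/
structure Sched {β : Type*} [Fintype β] (a b : β → ℝ) (p w C : ℝ) (t1 t2 t3 : β → ℝ)
    (z3 z2 y2 y1 : ℝ) : Prop where
  n1 : ∀ x, 0 ≤ t1 x
  nz : 0 ≤ z3
  ny : 0 ≤ y2
  h12 : ∀ x, t1 x + a x ≤ t2 x
  h23 : ∀ x, t2 x + b x ≤ t3 x
  h3C : ∀ x, t3 x + a x ≤ C
  hz : z3 + w ≤ z2
  hzC : z2 + (w - p) ≤ C
  hy : y2 + p ≤ y1
  hyC : y1 + w ≤ C
  d1 : ∀ x y, x ≠ y → t1 x + a x ≤ t1 y ∨ t1 y + a y ≤ t1 x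
  d1y : ∀ x, t1 x + a x ≤ y1 ∨ y1 + w ≤ t1 x
  d2 : ∀ x y, x ≠ y → t2 x + b x ≤ t2 y ∨ t2 y + b y ≤ t2 x
  d2y : ∀ x, t2 x + b x ≤ y2 ∨ y2 + p ≤ t2 x
  d2z : ∀ x, t2 x + b x ≤ z2 ∨ z2 + (w - p) ≤ t2 x
  d2yz : y2 + p ≤ z2 ∨ z2 + (w - p) ≤ y2
  d3 : ∀ x y, x ≠ y → t3 x + a x ≤ t3 y ∨ t3 y + a y ≤ t3 x
  d3z : ∀ x, t3 x + a x ≤ z3 ∨ z3 + w ≤ t3 x

section Forced

variable {β : Type*} [Fintype β] {a b : β → ℝ} {p w C : ℝ} {t1 t2 t3 : β → ℝ} {z3 z2 y2 y1 : ℝ}

theorem Sched.last1 (S : Sched a b p w C t1 t2 t3 z3 z2 y2 y1) (hp : 0 < p) (h2 : 2 * p ≤ w)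
    (ha : ∀ x, p ≤ a x) (hb : ∀ x, p ≤ b x) (hC : C = ∑ x, a x + w) (x : β) :
    t1 x + a x ≤ y1 := by
  rcases S.d1y x with h | h
  · exact h
  exfalso
  have key := packing (β := Option β) (fun o => o.elim y1 t1) (fun o => o.elim w a) 0 (C - p)
    (by have := S.n1 x; have := S.h12 x; have := S.h23 x; have := S.h3C x; have := ha x
        have := hb x; linarith)
    Finset.univ
    (by rintro (_ | y) -
        · have := S.hy; have := S.ny; simp only [Option.elim_none]; linarith
        · exact S.n1 y)
    (by rintro (_ | y) -
        · have := S.h12 x; have := S.h23 x; have := S.h3C x; have := ha x; have := hb x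
          simp only [Option.elim_none]; linarith
        · have := S.h12 y; have := S.h23 y; have := S.h3C y; have := ha y; have := hb y
          simp only [Option.elim_some]; linarith)
    (by rintro (_ | y) - (_ | z) - hne
        · exact absurd rfl hne
        · exact (S.d1y z).symm
        · exact S.d1y y
        · exact S.d1 y z (fun h => hne (by rw [h])))
    (by rintro (_ | y) -
        · simp only [Option.elim_none]; linarith
        · have := ha y; simp only [Option.elim_some]; linarith)
  rw [Fintype.sum_option] at key
  simp only [Option.elim_none, Option.elim_some] at key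
  linarith

theorem Sched.first3 (S : Sched a b p w C t1 t2 t3 z3 z2 y2 y1) (hp : 0 < p) (h2 : 2 * p ≤ w)
    (ha : ∀ x, p ≤ a x) (hb : ∀ x, p ≤ b x) (hC : C = ∑ x, a x + w) (x : β) :
    z3 + w ≤ t3 x := by
  rcases S.d3z x with h | h
  swap
  · exact h
  exfalso
  have key := packing (β := Option β) (fun o => o.elim z3 t3) (fun o => o.elim w a) p C
    (by have := S.n1 x; have := S.h12 x; have := S.h23 x; have := S.h3C x; have := ha x
        have := hb x; linarith)
    Finset.univ
    (by rintro (_ | y) -
        · have := S.n1 x; have := S.h12 x; have := S.h23 x; have := ha x; have := hb x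
          simp only [Option.elim_none]; linarith
        · have := S.n1 y; have := S.h12 y; have := S.h23 y; have := ha y; have := hb y
          simp only [Option.elim_some]; linarith)
    (by rintro (_ | y) -
        · have := S.hz; have := S.hzC; simp only [Option.elim_none]; linarith
        · exact S.h3C y)
    (by rintro (_ | y) - (_ | z) - hne
        · exact absurd rfl hne
        · exact (S.d3z z).symm
        · exact S.d3z y
        · exact S.d3 y z (fun h => hne (by rw [h])))
    (by rintro (_ | y) -
        · simp only [Option.elim_none]; linarith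
        · have := ha y; simp only [Option.elim_some]; linarith)
  rw [Fintype.sum_option] at key
  simp only [Option.elim_none, Option.elim_some] at key
  linarith

theorem Sched.first2 (S : Sched a b p w C t1 t2 t3 z3 z2 y2 y1) (hp : 0 < p) (h2 : 2 * p ≤ w)
    (ha : ∀ x, p ≤ a x) (hb : ∀ x, p ≤ b x) (hC : C = ∑ x, a x + w)
    (hS : ∑ x, b x = ∑ x, a x) (x : β) :
    y2 + p ≤ t2 x := by
  rcases S.d2y x with h | h
  swap
  · exact h
  exfalso
  have key := packing (β := Option (Option β)) (fun o => o.elim y2 (fun q => q.elim z2 t2))
    (fun o => o.elim p (fun q => q.elim (w - p) b)) p C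
    (by have := S.n1 x; have := S.h12 x; have := S.h23 x; have := S.h3C x; have := ha x
        have := hb x; linarith)
    Finset.univ
    (by rintro (_ | _ | y) -
        · have := S.n1 x; have := S.h12 x; have := ha x; have := hb x
          simp only [Option.elim_none]; linarith
        · have := S.nz; have := S.hz
          simp only [Option.elim_none, Option.elim_some]; linarith
        · have := S.n1 y; have := S.h12 y; have := ha y
          simp only [Option.elim_some]; linarith)
    (by rintro (_ | _ | y) -
        · have := S.hy; have := S.hyC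
          simp only [Option.elim_none]; linarith
        · exact S.hzC
        · have := S.h23 y; have := S.h3C y; have := ha y
          simp only [Option.elim_some]; linarith)
    (by rintro (_ | _ | y) - (_ | _ | z) - hne
        · exact absurd rfl hne
        · exact S.d2yz
        · exact (S.d2y z).symm
        · exact S.d2yz.symm
        · exact absurd rfl hne
        · exact (S.d2z z).symm
        · exact S.d2y y
        · exact S.d2z y
        · exact S.d2 y z (fun h => hne (by rw [h])))
    (by rintro (_ | _ | y) -
        · exact hp
        · simp only [Option.elim_none, Option.elim_some]; linarith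
        · have := hb y; simp only [Option.elim_some]; linarith)
  rw [Fintype.sum_option, Fintype.sum_option] at key
  simp only [Option.elim_none, Option.elim_some] at key
  linarith

theorem Sched.last2 (S : Sched a b p w C t1 t2 t3 z3 z2 y2 y1) (hp : 0 < p) (h2 : 2 * p ≤ w)
    (ha : ∀ x, p ≤ a x) (hb : ∀ x, p ≤ b x) (hC : C = ∑ x, a x + w)
    (hS : ∑ x, b x = ∑ x, a x) (x : β) :
    t2 x + b x ≤ z2 := by
  rcases S.d2z x with h | h
  · exact h
  exfalso
  have key := packing (β := Option (Option β)) (fun o => o.elim y2 (fun q => q.elim z2 t2))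
    (fun o => o.elim p (fun q => q.elim (w - p) b)) 0 (C - p)
    (by have := S.n1 x; have := S.h12 x; have := S.h23 x; have := S.h3C x; have := ha x
        have := hb x; linarith)
    Finset.univ
    (by rintro (_ | _ | y) -
        · exact S.ny
        · have := S.nz; have := S.hz
          simp only [Option.elim_none, Option.elim_some]; linarith
        · have := S.n1 y; have := S.h12 y; have := ha y
          simp only [Option.elim_some]; linarith)
    (by rintro (_ | _ | y) -
        · have := S.hy; have := S.hyC
          simp only [Option.elim_none]; linarith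
        · have := S.h23 x; have := S.h3C x; have := ha x; have := hb x
          simp only [Option.elim_none, Option.elim_some]; linarith
        · have := S.h23 y; have := S.h3C y; have := ha y
          simp only [Option.elim_some]; linarith)
    (by rintro (_ | _ | y) - (_ | _ | z) - hne
        · exact absurd rfl hne
        · exact S.d2yz
        · exact (S.d2y z).symm
        · exact S.d2yz.symm
        · exact absurd rfl hne
        · exact (S.d2z z).symm
        · exact S.d2y y
        · exact S.d2z y
        · exact S.d2 y z (fun h => hne (by rw [h])))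
    (by rintro (_ | _ | y) -
        · exact hp
        · simp only [Option.elim_none, Option.elim_some]; linarith
        · have := hb y; simp only [Option.elim_some]; linarith)
  rw [Fintype.sum_option, Fintype.sum_option] at key
  simp only [Option.elim_none, Option.elim_some] at key
  linarith

/-- Induction step of the main lemma. -/
theorem Sched.good_aux (S : Sched a b p w C t1 t2 t3 z3 z2 y2 y1) (hp : 0 < p)
    (h2 : 2 * p ≤ w) (h3 : w < 3 * p)
    (ha : ∀ x, p ≤ a x) (hb : ∀ x, p ≤ b x) (hC : C = ∑ x, a x + w)
    (hS : ∑ x, b x = ∑ x, a x) :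
    ∀ (R : List β) (A B : ℝ), R.Nodup → R.Pairwise (fun x y => t1 x < t1 y) →
      A + (R.map a).sum = ∑ x, a x → B + (R.map b).sum = ∑ x, a x →
      (∀ x ∈ R, A ≤ t1 x) → (∀ x ∈ R, p + B ≤ t2 x) → (∀ x ∈ R, w + A ≤ t3 x) →
      p ≤ p + B - A → p + B - A ≤ w - p → Good a b w (p + B - A) R := by
  classical
  intro R
  induction R with
  | nil => intros; trivial
  | cons x R ih =>
    intro A B hnd hso hA hB hl1 hl2 hl3 hu1 hu2
    have hx1 := hl1 x (by simp)
    rw [List.nodup_cons] at hnd
    rw [List.pairwise_cons] at hso
    rw [List.map_cons, List.sum_cons] at hA hB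
    -- the first block on machine 2
    have hsum : ∀ f : β → ℝ, ∑ y ∈ (x :: R).toFinset, f y = f x + (R.map f).sum := by
      intro f
      rw [List.sum_toFinset _ (List.nodup_cons.2 hnd)]
      simp
    have hne : (x :: R).toFinset.Nonempty := ⟨x, by simp⟩
    obtain ⟨y, hy, hymin⟩ := (x :: R).toFinset.exists_min_image t2 hne
    have hyT : t2 y ≤ p + B := by
      have key := packing t2 b (t2 y) z2
        (by have := S.last2 hp h2 ha hb hC hS y; have := hb y; linarith)
        (x :: R).toFinset hymin
        (fun z _ => S.last2 hp h2 ha hb hC hS z)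
        (fun z _ z' _ h => S.d2 z z' h)
        (fun z _ => by have := hb z; linarith)
      rw [hsum] at key
      have := S.hzC
      linarith
    have hyx : y = x := by
      by_contra hne'
      have hyR : y ∈ R := by
        rcases List.mem_cons.1 (List.mem_toFinset.1 hy) with h | h
        · exact absurd h hne'
        · exact h
      have h1 : t1 x + a x ≤ t1 y := by
        rcases S.d1 x y (fun h => hne' h.symm) with h | h
        · exact h
        · have := hso.1 y hyR
          have := ha y
          linarith
      have := S.h12 y
      have := ha x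
      have := ha y
      linarith
    subst hyx
    have hy2 : t2 y = p + B := le_antisymm hyT (hl2 y (by simp))
    have hcond1 : a y ≤ p + B - A := by
      have := S.h12 y
      linarith
    -- the first block on machine 3
    obtain ⟨v, hv, hvmin⟩ := (y :: R).toFinset.exists_min_image t3 hne
    have hvT : t3 v ≤ w + A := by
      have key := packing t3 a (t3 v) C
        (by have := S.h3C v; have := ha v; linarith)
        (y :: R).toFinset hvmin
        (fun z _ => S.h3C z)
        (fun z _ z' _ h => S.d3 z z' h)
        (fun z _ => by have := ha z; linarith)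
      rw [hsum] at key
      linarith
    have hvy : v = y := by
      by_contra hne'
      have hvR : v ∈ (y :: R).toFinset := hv
      have h1 : t2 y + b y ≤ t2 v := by
        rcases S.d2 y v (fun h => hne' h.symm) with h | h
        · exact h
        · have := hymin v hvR
          have := hb v
          linarith
      have := S.h23 v
      have := hb v
      have := hb y
      linarith
    subst hvy
    have hv3 : t3 v = w + A := le_antisymm hvT (hl3 v (by simp))
    have hcond2 : p + B - A + b v ≤ w := by
      have := S.h23 v
      linarith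
    refine ⟨hcond1, hcond2, ?_⟩
    have e : p + B - A + b v - a v = p + (B + b v) - (A + a v) := by ring
    rw [e]
    have mem_ne : ∀ z ∈ R, v ≠ z := fun z hz h => hnd.1 (h ▸ hz)
    refine ih (A + a v) (B + b v) hnd.2 hso.2 (by linarith) (by linarith) ?_ ?_ ?_ ?_ ?_
    · intro z hz
      rcases S.d1 v z (mem_ne z hz) with h | h
      · linarith
      · have := hso.1 z hz
        have := ha z
        linarith
    · intro z hz
      rcases S.d2 v z (mem_ne z hz) with h | h
      · linarith
      · have := hymin z (by simp [hz])
        have := hb z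
        linarith
    · intro z hz
      rcases S.d3 v z (mem_ne z hz) with h | h
      · linarith
      · have := hvmin z (by simp [hz])
        have := ha z
        linarith
    · have := hb v
      linarith
    · have := ha v
      linarith

/-- **Forced word.** In a schedule of makespan at most `∑ a + w` the blocks, in the order of
machine 1, form a word satisfying the walk condition. -/
theorem Sched.word (S : Sched a b p w C t1 t2 t3 z3 z2 y2 y1) (hp : 0 < p)
    (h2 : 2 * p ≤ w) (h3 : w < 3 * p)
    (ha : ∀ x, p ≤ a x) (hb : ∀ x, p ≤ b x) (hC : C = ∑ x, a x + w)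
    (hS : ∑ x, b x = ∑ x, a x) :
    ∃ L : List β, L.Nodup ∧ (∀ x, x ∈ L) ∧ L.Pairwise (fun x y => t1 x < t1 y) ∧
      Good a b w p L := by
  classical
  have hinj : ∀ x y, x ≠ y → t1 x ≠ t1 y := by
    intro x y h e
    have := ha x
    have := ha y
    rcases S.d1 x y h with h | h <;> linarith
  let r : β → β → Prop := fun x y => t1 x ≤ t1 y
  haveI : DecidableRel r := Classical.decRel _
  haveI : IsTrans β r := ⟨fun _ _ _ h h' => le_trans h h'⟩
  haveI : Std.Total r := ⟨fun x y => le_total _ _⟩
  let L := (Finset.univ : Finset β).toList.insertionSort r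
  have hperm : L.Perm (Finset.univ : Finset β).toList := List.perm_insertionSort r _
  have hnd : L.Nodup := hperm.nodup_iff.2 (Finset.nodup_toList _)
  have hmem : ∀ x, x ∈ L := fun x => hperm.mem_iff.2 (by simp)
  have hsort : L.Pairwise r := List.pairwise_insertionSort r _
  have hso : L.Pairwise (fun x y => t1 x < t1 y) := by
    have := List.Pairwise.and hsort hnd
    exact this.imp (fun {x y} h => lt_of_le_of_ne h.1 (hinj x y h.2))
  have hsum : ∀ f : β → ℝ, (L.map f).sum = ∑ x, f x := by
    intro f
    rw [(hperm.map f).sum_eq]
    simp
  refine ⟨L, hnd, hmem, hso, ?_⟩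
  have := S.good_aux hp h2 h3 ha hb hC hS L 0 0 hnd hso (by rw [hsum]; ring)
    (by rw [hsum, hS]; ring) (fun x _ => S.n1 x)
    (fun x _ => by have := S.first2 hp h2 ha hb hC hS x; have := S.ny; linarith)
    (fun x _ => by have := S.first3 hp h2 ha hb hC x; have := S.nz; linarith)
    (by linarith) (by linarith)
  simpa using this

end Forced

end Pool.Agent.helper71.JS
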